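import Pool.Agent.J6H13.RL.Fin
import Pool.Agent.J6H13.RL.Asym

/-!
# Almost all orders of consecutive prime gaps of record size

Let `f(x) = log x (log₂ x)² log₄ x / (log₃ x)²`, the order of the largest gaps between consecutive primes that
are known to occur. At every scale `H` between `log X` and `δ (k) f(X)`, in particular at the record scale itself,
at least `k! exp (-C k √(log k)) = (k!) ^ (1 - o(1))` of the `k!` orders of `k` gaps occur for `k` consecutive
gaps of size about `H` between consecutive primes of `(X, 4 X]` in a prescribed class modulo a squarefree `q`, each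
of them at least `X ^ (7/8)` times.

Proof. (1) A new form of the coloured Maynard-Tao theorem inside the windows of the record sieve: for `2 ^ B`
positions in `m` classes of about the same size and `m ≥ C λ B` there are windows without other primes for which
`∑_g (N_g - λ N_g (N_g - 1)) ≥ c B`, where `N_g` is the number of primes at the positions of the class `g`. So
almost all classes which are hit are hit once. It rests on the weights (a tree of `2 ^ B` positions, with square
root many of the products of distinct levels) and the record sieve of the starting files. (2) The classes are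
placed such that their distances are ordered like a given permutation `σ` of `m - 1` letters; the gaps between
consecutive hits then contain a large part of the pattern of `σ`. (3) Counting of the permutations `σ`.
-/

set_option autoImplicit false

namespace Pool.Agent.Results.MP_ff81b6_nt.ManyOrdersOfRecordGaps

/-- the record scale `f(x) = log x (log₂ x)² log₄ x / (log₃ x)²` -/
noncomputable def f (x : ℝ) : ℝ :=
  Real.log x * (Real.log (Real.log x)) ^ 2 * Real.log (Real.log (Real.log (Real.log x))) /
    (Real.log (Real.log (Real.log x))) ^ 2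

/-- the gap `p_(n+1) - p_n`, where `p_0 = 2, p_1 = 3, ...` are the primes -/
noncomputable def gap (n : ℕ) : ℕ := Nat.nth Nat.Prime (n + 1) - Nat.nth Nat.Prime n

/-- the `n` with `X < p_n < ... < p_(n+k) ≤ 4 X`, all `≡ a` modulo `q`, whose `k` gaps are between `δ H` and `H`
and ordered like `π 0, ..., π (k - 1)` (so they are different) -/
def Occ (k q a : ℕ) (δ X H : ℝ) (π : Equiv.Perm (Fin k)) : Set ℕ :=
  {n | X < Nat.nth Nat.Prime n ∧ (Nat.nth Nat.Prime (n + k) : ℝ) ≤ 4 * X ∧
    (∀ i ≤ k, Nat.nth Nat.Prime (n + i) ≡ a [MOD q]) ∧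
    (∀ i < k, δ * H ≤ gap (n + i) ∧ (gap (n + i) : ℝ) ≤ H) ∧
    ∀ i j : Fin k, π i < π j ↔ gap (n + i) < gap (n + j)}

/-- There is an absolute constant `C` such that for every `k ≥ 1` there is `δ > 0` with the following property.
Let `q` be squarefree, `a` coprime to `q`, `X` large and `log X ≤ H ≤ δ f(X)`. Then at least
`k! exp (-C k √(log k))` of the `k!` orders of `k` consecutive prime gaps occur at least `X ^ (7/8)` times among
the strings of `k + 1` consecutive primes in `(X, 4 X]` which are `≡ a` modulo `q` and have all gaps between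
`δ H` and `H`. -/
theorem result : ∃ C : ℝ, 0 < C ∧ ∀ k : ℕ, 1 ≤ k → ∃ δ : ℝ, 0 < δ ∧ ∀ q a : ℕ, Squarefree q → a.Coprime q →
    ∃ X₀ : ℝ, ∀ X : ℝ, X₀ ≤ X → ∀ H : ℝ, Real.log X ≤ H → H ≤ δ * f X →
      (k.factorial : ℝ) * Real.exp (-(C * k * Real.sqrt (Real.log k))) ≤
        ({π : Equiv.Perm (Fin k) | X ^ (7 / 8 : ℝ) ≤ ((Occ k q a δ X H π).ncard : ℝ)}.ncard : ℝ) := by
  classical
  obtain ⟨C, hC, hmain⟩ := Pool.Agent.J6H13.RL.many_orders Pool.Agent.J6H13.RL.stRL
  refine ⟨C, hC, fun k hk => ?_⟩
  obtain ⟨δ, hδ, h1⟩ := hmain k hk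
  refine ⟨δ, hδ, fun q a hq ha => ?_⟩
  obtain ⟨X₀, hX₀⟩ := h1 q a hq ha
  refine ⟨X₀, fun X hX H hH1 hH2 => ?_⟩
  refine (hX₀ X hX H hH1 hH2).trans (le_of_eq ?_)
  rw [← Set.ncard_coe_finset]
  congr 2
  ext π
  simp only [Finset.coe_filter, Finset.mem_univ, true_and, Set.mem_ofPred_eq]
  rfl

end Pool.Agent.Results.MP_ff81b6_nt.ManyOrdersOfRecordGaps
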