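import Pool.Agent.J6H10.PR.Rec
import Mathlib.Combinatorics.HalesJewett

/-!
# Record gaps chosen freely from partition regular families near zero

Let `f(x) = log x (log₂ x)² log₄ x / (log₃ x)²`, the size of the largest gaps between consecutive primes that are
known to occur up to `x`. Let `𝓒_0, 𝓒_1, …` be any families of nonempty finite sets of positive reals which are
invariant under translations by positive reals and partition regular near `0`: for every `ε > 0` and every finite
colouring of the positive reals some member of `𝓒_i` is monochromatic and contained in `(0, ε)`. Examples are the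
homothetic copies `b + a E` of a given finite set `E` of reals (theorem `homothetic`), and, for given real polynomials
`P_1, …, P_m` with `P_j(0) = 0`, the sets `{b + P_1(a), …, b + P_m(a)}`.

There are members `S_0 ∈ 𝓒_0, S_1 ∈ 𝓒_1, …` such that for ALL choices `x_i ∈ S_i` and all nonempty finite sets
`F_0 < F_1 < … < F_{m-1}` of indices, far enough out, the vector `ρ (x_{F_0}, …, x_{F_{m-1}})` of the sums
`x_{F_l} = ∑_{i ∈ F_l} x_i`, and the reversed vector, are limit points of the vectors of `m` consecutive prime gaps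
divided by `f`; the dilation factor `ρ` is an arbitrary positive function of the sums over `k` further blocks which
precede `F_0`.

The theorem is stated for families of finite subsets of an arbitrary commutative monoid `G` (for instance `[0, ∞)^r`)
and countably many homomorphisms `φ_s : G → ℝ`, dilation functions, residue classes and SCALES at once, with the same
sets `S_i`: the record function can be replaced by any slowly varying `H` with `log x ≤ H(x) = O(f(x))`, and if
`H(x) = o(f(x))` the values of `φ` need not be small.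

Method: an infinite dimensional Ramsey theorem (`Pool.Agent.J6H10.PR.closed_sets`): if `q` is an idempotent in a
minimal left ideal of the semigroup of the ultrafilters of `G` near `0`, every member of `q` contains members of all
the families; the sets of the vectors of limit points depend on finitely many blocks only, and a strategy argument for
`q` shows that almost all choices with respect to `q` can be continued. The existence comes from the Maynard-Tao
theorem inside the record windows, in the form of `Pool.Agent.W126.RecSum` of the starting files.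
-/

open Filter Topology

set_option autoImplicit false

namespace Pool.Agent.Results.MP_ff81b6_nt.PartitionRegularRecordGaps

/-- The record scale `f(x) = log x (log₂ x)² log₄ x / (log₃ x)²` (iterated natural logarithms). -/
noncomputable def f (x : ℝ) : ℝ :=
  Real.log x * (Real.log (Real.log x)) ^ 2 * Real.log (Real.log (Real.log (Real.log x))) /
    (Real.log (Real.log (Real.log x))) ^ 2

/-- `H(x) = o(f(x))` -/
def Small (H : ℝ → ℝ) : Prop := ∀ c : ℝ, 0 < c → ∀ᶠ x : ℝ in atTop, H x ≤ c * f x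

/-- The set of the vectors `v ∈ ℝ^m` such that for every `ε > 0` there are infinitely many `n` with
`p_(n+i) ≡ r (mod q)` for `0 ≤ i ≤ m` and `|(p_(n+i+1) - p_(n+i)) / H(p_n) - v i| < ε` for
`0 ≤ i < m` (`p_n` is the prime with index `n`): the limit points of the vectors of `m` consecutive
gaps divided by `H`, along blocks of `m + 1` consecutive primes in the class `r` modulo `q`. -/
def LimitPoints (H : ℝ → ℝ) (m q r : ℕ) : Set (Fin m → ℝ) :=
  {v | ∀ ε : ℝ, 0 < ε → ∃ᶠ n : ℕ in atTop,
    (∀ i ≤ m, Nat.nth Nat.Prime (n + i) ≡ r [MOD q]) ∧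
    ∀ i : Fin m, |((Nat.nth Nat.Prime (n + i + 1) : ℝ) - Nat.nth Nat.Prime (n + i)) /
      H (Nat.nth Nat.Prime n) - v i| < ε}

/-- Let `G` be a commutative monoid and `φ s : G → ℝ` homomorphisms. For every index `s` let `H s` be a slowly
varying function with `log x ≤ H s x = O(f(x))`. Let `𝓒 i` be families of nonempty finite subsets of `G` which are
invariant under translations and partition regular near `0`: for every finite colouring of `G`, all `n` and all `ε > 0`
the family `𝓒 i` has a monochromatic member `S` such that all `φ s x`, `x ∈ S`, are positive and, for all `s < n`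
except those with `H s = o(f)`, less than `ε`. Let `q s` be squarefree, `r s` prime to `q s`, and let `ρ s k` be
positive functions of `k` elements of `G`. There are `S i ∈ 𝓒 i` such that for all `s, k, m` there is `N` with: for
all choices `x i ∈ S i` and all nonempty finite sets `N ≤ F_0 < F_1 < … < F_(k+m-1)` the vector of the sums of the
`φ s (x i)` over `i ∈ F_(k+l)`, `0 ≤ l < m`, multiplied by `ρ s k` of the sums of the `x i` over `F_0, …, F_(k-1)`,
and the reversed vector, are limit points of the vectors of `m` consecutive prime gaps divided by `H s`, along the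
primes `≡ r s (mod q s)`. -/
theorem result (G : Type) [AddCommMonoid G] (φ : ℕ → G →+ ℝ) (H : ℕ → ℝ → ℝ)
    (hlow : ∀ s, ∀ᶠ x : ℝ in atTop, Real.log x ≤ H s x)
    (hslow : ∀ s, ∀ ε : ℝ, 0 < ε → ∀ᶠ x : ℝ in atTop, ∀ t : ℝ, x ≤ t → t ≤ 4 * x →
      |H s x / H s t - 1| < ε)
    (hupp : ∀ s, ∃ C : ℝ, ∀ᶠ x : ℝ in atTop, H s x ≤ C * f x)
    (𝓒 : ℕ → Set (Finset G)) (hne : ∀ i, ∀ S ∈ 𝓒 i, S.Nonempty)
    (htr : ∀ i, ∀ S ∈ 𝓒 i, ∀ v : G, ∃ S' ∈ 𝓒 i, (S' : Set G) = (fun s => v + s) '' S)
    (hpr : ∀ (i n : ℕ) (ε : ℝ), 0 < ε → ∀ (k : ℕ) (χ : G → Fin k), ∃ S ∈ 𝓒 i,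
      (∀ x ∈ S, (∀ s, 0 < φ s x) ∧ ∀ s < n, ¬ Small (H s) → φ s x < ε) ∧
      ∀ x ∈ S, ∀ y ∈ S, χ x = χ y)
    (q r : ℕ → ℕ) (hq : ∀ s, Squarefree (q s)) (hr : ∀ s, (r s).Coprime (q s))
    (ρ : ℕ → ∀ k, (Fin k → G) → ℝ) (hρ : ∀ s k P, 0 < ρ s k P) :
    ∃ S : ℕ → Finset G, (∀ i, S i ∈ 𝓒 i) ∧
      ∀ s k m : ℕ, ∃ N : ℕ, ∀ (F : ℕ → Finset ℕ) (x : ℕ → G), (∀ i, x i ∈ S i) →
        (∀ l < k + m, (F l).Nonempty) → (∀ l < k + m, ∀ i ∈ F l, N ≤ i) →
        (∀ l, l + 1 < k + m → ∀ i ∈ F l, ∀ i' ∈ F (l + 1), i < i') →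
        (fun l : Fin m => ρ s k (fun l' => ∑ i ∈ F l', x i) * ∑ i ∈ F (k + l), φ s (x i)) ∈
            LimitPoints (H s) m (q s) (r s) ∧
        (fun l : Fin m => ρ s k (fun l' => ∑ i ∈ F l', x i) *
          ∑ i ∈ F (k + (Fin.rev l : Fin m)), φ s (x i)) ∈ LimitPoints (H s) m (q s) (r s) := by
  classical
  obtain ⟨T, hTdef⟩ : ∃ T : ℕ → Set G, T = fun n => {x | (∀ s, 0 < φ s x) ∧
    ∀ s < n, ¬ Small (H s) → φ s x < (1 / 2 : ℝ) ^ n} := ⟨_, rfl⟩
  have hTm : ∀ n x, x ∈ T n ↔ (∀ s, 0 < φ s x) ∧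
      ∀ s < n, ¬ Small (H s) → φ s x < (1 / 2 : ℝ) ^ n := by
    intro n x
    rw [hTdef]
    exact Iff.rfl
  have hT : Pool.Agent.J6H10.PR.Tails T := by
    refine ⟨fun m n hmn x hx => ?_, fun n => ?_, fun n x hx => ?_⟩
    · rw [hTm] at hx ⊢
      refine ⟨hx.1, fun s hs hS => (hx.2 s (by omega) hS).trans_le ?_⟩
      exact pow_le_pow_of_le_one (by norm_num) (by norm_num) hmn
    · obtain ⟨S, hS, h, -⟩ := hpr 0 n ((1 / 2 : ℝ) ^ n) (by positivity) 1 (fun _ => 0)
      obtain ⟨x, hx⟩ := hne 0 S hS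
      exact ⟨x, (hTm n x).2 (h x hx)⟩
    · rw [hTm] at hx
      have h1 : ∀ᶠ m : ℕ in atTop, ∀ s ∈ Finset.range n, ¬ Small (H s) →
          (1 / 2 : ℝ) ^ m < (1 / 2 : ℝ) ^ n - φ s x := by
        rw [Filter.eventually_all_finset]
        intro s hs
        by_cases hS : Small (H s)
        · exact Eventually.of_forall fun m h => absurd hS h
        · have h2 : 0 < (1 / 2 : ℝ) ^ n - φ s x := by
            have := hx.2 s (Finset.mem_range.1 hs) hS
            linarith
          filter_upwards [(tendsto_pow_atTop_nhds_zero_of_lt_one (by norm_num : (0 : ℝ) ≤ 1 / 2)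
            (by norm_num)).eventually (gt_mem_nhds h2)] with m hm _ using hm
      obtain ⟨m, hm, hmn⟩ := (h1.and (eventually_ge_atTop n)).exists
      refine ⟨m, fun y hy => ?_⟩
      rw [hTm] at hy ⊢
      refine ⟨fun s => ?_, fun s hs hS => ?_⟩
      · rw [map_add]
        exact add_pos (hx.1 s) (hy.1 s)
      · rw [map_add]
        have h2 := hm s (Finset.mem_range.2 hs) hS
        have h3 := hy.2 s (by omega) hS
        linarith
  have hreg : ∀ i, Pool.Agent.J6H10.PR.Reg T (𝓒 i) := by
    intro i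
    refine ⟨fun S hS v _ => ?_, fun n k χ => ?_⟩
    · obtain ⟨S', hS', h⟩ := htr i S hS v
      refine ⟨S', hS', fun s' => ?_⟩
      rw [← Finset.mem_coe, h, Set.mem_image]
      constructor
      · rintro ⟨s, hs, rfl⟩
        exact ⟨s, hs, rfl⟩
      · rintro ⟨s, hs, rfl⟩
        exact ⟨s, hs, rfl⟩
    · obtain ⟨S, hS, h1, h2⟩ := hpr i n ((1 / 2 : ℝ) ^ n) (by positivity) k χ
      exact ⟨S, hS, fun x hx => (hTm n x).2 (h1 x hx), h2⟩
  obtain ⟨S, hS1, -, hS3⟩ := Pool.Agent.J6H10.PR.main_recG hT 𝓒 hreg φ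
    (fun s x hx => ((hTm 0 x).1 hx).1 s) H (fun s => ⟨hlow s, hslow s⟩) (fun s => by
      by_cases hS : Small (H s)
      · exact Or.inl hS
      · refine Or.inr ⟨hupp s, fun i => (1 / 2 : ℝ) ^ i,
          summable_geometric_of_lt_one (by norm_num) (by norm_num), ?_⟩
        filter_upwards [eventually_gt_atTop s] with i hi x hx
        exact (((hTm i x).1 hx).2 s hi hS).le) q r hq hr ρ hρ
  exact ⟨S, hS1, hS3⟩

/-- van der Waerden's theorem near `0`: every finite colouring of the positive reals has monochromatic homothetic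
copies of a given finite set of nonnegative reals arbitrarily near `0`. -/
theorem copies_near_zero (E : Finset NNReal) (ε : ℝ) (hε : 0 < ε) (k : ℕ) (χ : NNReal → Fin k) :
    ∃ a b : NNReal, 0 < a ∧ 0 < b ∧ (∀ e ∈ E, ((a * e + b : NNReal) : ℝ) < ε) ∧
      ∀ e ∈ E, ∀ e' ∈ E, χ (a * e + b) = χ (a * e' + b) := by
  classical
  by_cases hE : E = ∅
  · subst hE
    exact ⟨1, 1, one_pos, one_pos, fun e he => absurd he (Finset.notMem_empty e),
      fun e he => absurd he (Finset.notMem_empty e)⟩
  obtain ⟨ι, hι, hHJ⟩ := Combinatorics.Line.exists_mono_in_high_dimension {e : NNReal // e ∈ E} (Fin k)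
  -- the step
  obtain ⟨δ, hδ0, hδ⟩ : ∃ δ : NNReal, 0 < δ ∧
      (δ : ℝ) * (1 + (Fintype.card ι : ℝ) * ∑ e ∈ E, (e : ℝ)) < ε := by
    have hB : 0 < 1 + (Fintype.card ι : ℝ) * ∑ e ∈ E, (e : ℝ) := by positivity
    refine ⟨⟨ε / (2 * (1 + (Fintype.card ι : ℝ) * ∑ e ∈ E, (e : ℝ))), by positivity⟩, ?_, ?_⟩
    · rw [← NNReal.coe_pos]
      show 0 < ε / (2 * (1 + (Fintype.card ι : ℝ) * ∑ e ∈ E, (e : ℝ)))
      positivity
    · show ε / (2 * (1 + (Fintype.card ι : ℝ) * ∑ e ∈ E, (e : ℝ))) *
        (1 + (Fintype.card ι : ℝ) * ∑ e ∈ E, (e : ℝ)) < ε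
      rw [div_mul_eq_mul_div, div_lt_iff₀ (by positivity)]
      nlinarith
  obtain ⟨l, c, hl⟩ := hHJ (fun v => χ (δ + δ * ∑ i, ((v i : {e : NNReal // e ∈ E}) : NNReal)))
  obtain ⟨i0, hi0⟩ := l.proper
  set V : Finset ι := Finset.univ.filter fun i => l.idxFun i = none with hV
  have hVne : 0 < V.card := Finset.card_pos.2 ⟨i0, by rw [hV]; simp [hi0]⟩
  set b0 : NNReal := ∑ i ∈ Finset.univ.filter (fun i => ¬ l.idxFun i = none),
    ((l.idxFun i).elim 0 fun e => (e : NNReal)) with hb0
  have hsum : ∀ (e : NNReal) (he : e ∈ E), ∑ i, ((l ⟨e, he⟩ i : {e : NNReal // e ∈ E}) : NNReal) =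
      V.card * e + b0 := by
    intro e he
    rw [← Finset.sum_filter_add_sum_filter_not Finset.univ (fun i => l.idxFun i = none)]
    congr 1
    · rw [← nsmul_eq_mul, ← Finset.sum_const]
      refine Finset.sum_congr rfl fun i hi => ?_
      have h1 : l.idxFun i = none := (Finset.mem_filter.1 hi).2
      show (((l.idxFun i).getD ⟨e, he⟩ : {e : NNReal // e ∈ E}) : NNReal) = e
      rw [h1]
      rfl
    · refine Finset.sum_congr rfl fun i hi => ?_
      have h1 : ¬ l.idxFun i = none := (Finset.mem_filter.1 hi).2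
      obtain ⟨e', he'⟩ := Option.ne_none_iff_exists'.1 h1
      show (((l.idxFun i).getD ⟨e, he⟩ : {e : NNReal // e ∈ E}) : NNReal) =
        (l.idxFun i).elim 0 fun e => (e : NNReal)
      rw [he']
      rfl
  have hform : ∀ (e : NNReal) (he : e ∈ E), δ * V.card * e + (δ + δ * b0) =
      δ + δ * ∑ i, ((l ⟨e, he⟩ i : {e : NNReal // e ∈ E}) : NNReal) := by
    intro e he
    rw [hsum e he]
    ring
  refine ⟨δ * V.card, δ + δ * b0, mul_pos hδ0 (by exact_mod_cast hVne),
    add_pos_of_pos_of_nonneg hδ0 zero_le, fun e he => ?_, fun e he e' he' => ?_⟩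
  · rw [hform e he]
    refine lt_of_le_of_lt ?_ hδ
    push_cast
    have h1 : ∑ i, (((l ⟨e, he⟩ i : {e : NNReal // e ∈ E}) : NNReal) : ℝ) ≤
        (Fintype.card ι : ℝ) * ∑ e ∈ E, (e : ℝ) := by
      rw [← nsmul_eq_mul, ← Finset.card_univ, ← Finset.sum_const]
      refine Finset.sum_le_sum fun i _ => ?_
      exact Finset.single_le_sum (f := fun e : NNReal => (e : ℝ)) (fun e _ => e.2)
        (l ⟨e, he⟩ i).2
    have h2 : (0 : ℝ) ≤ δ := δ.2
    nlinarith
  · have hl' : ∀ x : {e : NNReal // e ∈ E},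
        χ (δ + δ * ∑ i, ((l x i : {e : NNReal // e ∈ E}) : NNReal)) = c := hl
    rw [hform e he, hform e' he', hl' ⟨e, he⟩, hl' ⟨e', he'⟩]

/-- Special case: homothetic copies. For all nonempty finite sets `E_0, E_1, …` of nonnegative reals there are
positive reals `a_i, b_i` such that for every `m` all vectors of the sums of the `a_i e_i + b_i` over `i ∈ F_l`,
`l < m`, with arbitrary choices `e_i ∈ E_i` and nonempty finite sets `F_0 < … < F_(m-1)` far enough out, are limit
points of the vectors of `m` consecutive prime gaps divided by `f`. -/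
theorem homothetic (E : ℕ → Finset NNReal) (hE : ∀ i, (E i).Nonempty) :
    ∃ a b : ℕ → NNReal, (∀ i, 0 < a i ∧ 0 < b i) ∧
      ∀ m : ℕ, ∃ N : ℕ, ∀ (F : ℕ → Finset ℕ) (e : ℕ → NNReal), (∀ i, e i ∈ E i) →
        (∀ l < m, (F l).Nonempty) → (∀ l < m, ∀ i ∈ F l, N ≤ i) →
        (∀ l, l + 1 < m → ∀ i ∈ F l, ∀ i' ∈ F (l + 1), i < i') →
        (fun l : Fin m => ∑ i ∈ F l, ((a i * e i + b i : NNReal) : ℝ)) ∈ LimitPoints f m 1 1 := by
  classical
  have hff : f = Pool.Agent.H256R2.SC.ff := rfl
  obtain ⟨S, hS1, hS2⟩ := result NNReal (fun _ => NNReal.toRealHom.toAddMonoidHom) (fun _ => f)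
    (fun s => by
      filter_upwards [Pool.Agent.H672R3.InfRec.scale_ev 1 one_pos] with x hx
      rw [one_mul] at hx
      exact hx) (fun _ ε hε => Pool.Agent.H312R2.RG.C3.ff_slow ε hε)
    (fun s => ⟨1, Eventually.of_forall fun x => by rw [one_mul]⟩)
    (fun i => {S | ∃ a b : NNReal, 0 < a ∧ 0 < b ∧ S = (E i).image fun e => a * e + b})
    (fun i S hS => by
      obtain ⟨a, b, -, -, rfl⟩ := hS
      exact (hE i).image _) (fun i S hS v => by
      obtain ⟨a, b, ha, hb, rfl⟩ := hS
      refine ⟨(E i).image fun e => a * e + (b + v), ⟨a, b + v, ha,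
        add_pos_of_pos_of_nonneg hb zero_le, rfl⟩, ?_⟩
      rw [Finset.coe_image, Finset.coe_image, Set.image_image]
      refine Set.image_congr fun e _ => ?_
      ring) (fun i n ε hε k χ => by
      obtain ⟨a, b, ha, hb, h1, h2⟩ := copies_near_zero (E i) ε hε k χ
      refine ⟨(E i).image fun e => a * e + b, ⟨a, b, ha, hb, rfl⟩, fun x hx => ?_,
        fun x hx y hy => ?_⟩
      · obtain ⟨e, he, rfl⟩ := Finset.mem_image.1 hx
        refine ⟨fun s => ?_, fun s _ _ => h1 e he⟩
        show (0 : ℝ) < ((a * e + b : NNReal) : ℝ)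
        rw [NNReal.coe_pos]
        exact add_pos_of_nonneg_of_pos zero_le hb
      · obtain ⟨e, he, rfl⟩ := Finset.mem_image.1 hx
        obtain ⟨e', he', rfl⟩ := Finset.mem_image.1 hy
        exact h2 e he e' he')
    (fun _ => 1) (fun _ => 1) (fun _ => squarefree_one) (fun _ => Nat.coprime_one_right 1)
    (fun _ _ _ => 1) (fun _ _ _ => one_pos)
  choose a b ha hb hab using hS1
  refine ⟨a, b, fun i => ⟨ha i, hb i⟩, fun m => ?_⟩
  obtain ⟨N, hN⟩ := hS2 0 0 m
  refine ⟨N, fun F e he hF1 hF2 hF3 => ?_⟩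
  have h1 := (hN F (fun i => a i * e i + b i) (fun i => by
    rw [hab i]
    exact Finset.mem_image_of_mem _ (he i)) (fun l hl => hF1 l (by omega))
    (fun l hl => hF2 l (by omega)) (fun l hl => hF3 l (by omega))).1
  convert h1 using 1
  funext l
  rw [one_mul, zero_add]
  rfl

end Pool.Agent.Results.MP_ff81b6_nt.PartitionRegularRecordGaps
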