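import Pool.Agent.J6H67.CG.Fin3

set_option autoImplicit false

/-!
# MP_ff81b6_nt: Cramér's constant in sequential random models with a growing sieve

The integers are decided one after the other.  No `m` with a prime factor `q ≤ z(m)` is chosen; the conditional
probability of choosing `m + 1` (without such prime factors), given the past, is asymptotic to
`∏_{q ≤ z(m + 1)} (1 - 1/q)⁻¹ / log m`.  No independence is assumed.  For all nondecreasing `z(n) ≤ n^(o(1))` we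
bound `L = limsup gap / log²` and the largest gap `G(x)` up to `x` in terms of the size of the sieve, and we
characterise the `z` with `L = 1` and those with `liminf G(x)/log² x = 1`.
-/

namespace Pool.Agent.Results.MP_ff81b6_nt.SequentialModels

open MeasureTheory Filter Finset
open scoped Topology

/-- no prime `q ≤ z m` divides `m` -/
def Rough (z : ℕ → ℕ) (m : ℕ) : Prop := ∀ q : ℕ, q.Prime → q ≤ z m → ¬ q ∣ m

/-- `∏ (1 - 1/q)⁻¹` over the primes `q ≤ x` -/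
noncomputable def W (x : ℕ) : ℝ := ∏ q ∈ (Finset.Icc 1 x).filter Nat.Prime, (1 - (q : ℝ)⁻¹)⁻¹

/-- a sequential random model of the primes sieved by the primes `q ≤ z(m)` -/
structure IsModel {Ω : Type} [mΩ : MeasurableSpace Ω] (μ : Measure Ω) (ℱ : Filtration ℕ mΩ)
    (S : ℕ → Set Ω) (z : ℕ → ℕ) : Prop where
  /-- whether `n` is chosen is known at the time `n` -/
  adapted : ∀ n, MeasurableSet[ℱ n] (S n)
  /-- no `n` with a prime factor `q ≤ z n` is chosen -/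
  sieved : ∀ n, ¬ Rough z n → S n = ∅
  /-- the conditional probability of `S (n + 1)` given `ℱ n` is asymptotic to `W (z (n + 1)) / log n`
  along the `n` with `Rough z (n + 1)` -/
  density : ∀ᵐ ω ∂μ, Tendsto (fun n : ℕ =>
    (μ[(S (n + 1)).indicator (fun _ => (1 : ℝ)) | ℱ n]) ω * Real.log n / W (z (n + 1)))
    (atTop ⊓ 𝓟 {n : ℕ | Rough z (n + 1)}) (𝓝 1)

/-- `z(n) ≤ n^(o(1))` -/
def Sub (z : ℕ → ℕ) : Prop := ∀ δ : ℝ, 0 < δ → ∀ᶠ n : ℕ in atTop, (z n : ℝ) ≤ (n : ℝ) ^ δ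

/-- the distance from `n` to the next member of `T` -/
noncomputable def gap (T : Set ℕ) (n : ℕ) : ℕ := sInf {m | m ∈ T ∧ n < m} - n

open Classical in
/-- `G(x)`: the largest gap after a member `n ≤ x` of `T` -/
noncomputable def maxGap (T : Set ℕ) (x : ℕ) : ℕ := ((range (x + 1)).filter (fun n => n ∈ T)).sup (gap T)

/-- `L = limsup gap(n) / (log n)²` over the members `n` of `T` (an extended real number) -/
noncomputable def Lsup (T : Set ℕ) : EReal :=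
  limsup (fun n : ℕ => (((gap T n : ℝ) / Real.log n ^ 2 : ℝ) : EReal)) (atTop ⊓ 𝓟 T)

/-- `liminf G(x) / (log x)²` (an extended real number) -/
noncomputable def Ginf (T : Set ℕ) : EReal :=
  liminf (fun x : ℕ => (((maxGap T x : ℝ) / Real.log x ^ 2 : ℝ) : EReal)) atTop

/-- `limsup G(x) / (log x)²` (an extended real number) -/
noncomputable def Gsup (T : Set ℕ) : EReal :=
  limsup (fun x : ℕ => (((maxGap T x : ℝ) / Real.log x ^ 2 : ℝ) : EReal)) atTop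

/-- **Cramér's constant and the size of the sieve.**  Let `z` be nondecreasing, `z(n) ≤ n^(o(1))`.  In every
sequential random model with sieve `z`, almost surely: (1) `1 ≤ liminf G(x)/log² x ≤ limsup G(x)/log² x = L`;
(2) for every `ε > 0` there is `δ > 0` (not depending on the model or on `z`) such that `liminf G(x)/log² x ≥ 1 + δ` if
`z(n) ≥ (log n)^ε` for all large `n`, and `L ≥ 1 + δ` if `z(n) ≥ (log n)^ε` for infinitely many `n`;
(3) `liminf G(x)/log² x ≥ 2 e^(-γ)` if for every `ε > 0`, `z(n) ≥ (log n)^(1-ε)` for all large `n`, and `L ≥ 2 e^(-γ)` if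
for every `ε > 0` this holds for infinitely many `n`; (4) for every `η > 0` there is `b > 0` (not depending on the model
or on `z`) such that `L ≤ 1 + η` if `z(n) ≤ (log n)^b` for all large `n`, and `liminf G(x)/log² x ≤ 1 + η` if
`z(n) ≤ (log n)^b` for infinitely many `n`.  (5) So `L = 1` almost surely if and only if for every `ε > 0`,
`z(n) ≤ (log n)^ε` for all large `n`, and `liminf G(x)/log² x = 1` almost surely if and only if for every `ε > 0`,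
`z(n) ≤ (log n)^ε` for infinitely many `n`. -/
theorem result :
    (∀ z : ℕ → ℕ, Monotone z → Sub z →
      ∀ {Ω : Type} [mΩ : MeasurableSpace Ω] (μ : Measure Ω) [IsProbabilityMeasure μ]
        (ℱ : Filtration ℕ mΩ) (S : ℕ → Set Ω), IsModel μ ℱ S z →
        ∀ᵐ ω ∂μ, 1 ≤ Ginf {k | ω ∈ S k} ∧ Ginf {k | ω ∈ S k} ≤ Gsup {k | ω ∈ S k} ∧
          Gsup {k | ω ∈ S k} = Lsup {k | ω ∈ S k}) ∧
    (∀ ε : ℝ, 0 < ε → ∃ δ : ℝ, 0 < δ ∧ ∀ z : ℕ → ℕ, Monotone z → Sub z →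
      ∀ {Ω : Type} [mΩ : MeasurableSpace Ω] (μ : Measure Ω) [IsProbabilityMeasure μ]
        (ℱ : Filtration ℕ mΩ) (S : ℕ → Set Ω), IsModel μ ℱ S z →
        ((∀ᶠ n : ℕ in atTop, Real.log n ^ ε ≤ (z n : ℝ)) →
          ∀ᵐ ω ∂μ, ((1 + δ : ℝ) : EReal) ≤ Ginf {k | ω ∈ S k}) ∧
        ((∃ᶠ n : ℕ in atTop, Real.log n ^ ε ≤ (z n : ℝ)) →
          ∀ᵐ ω ∂μ, ((1 + δ : ℝ) : EReal) ≤ Lsup {k | ω ∈ S k})) ∧
    (∀ z : ℕ → ℕ, Monotone z → Sub z →
      ∀ {Ω : Type} [mΩ : MeasurableSpace Ω] (μ : Measure Ω) [IsProbabilityMeasure μ]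
        (ℱ : Filtration ℕ mΩ) (S : ℕ → Set Ω), IsModel μ ℱ S z →
        ((∀ ε : ℝ, 0 < ε → ∀ᶠ n : ℕ in atTop, Real.log n ^ (1 - ε) ≤ (z n : ℝ)) →
          ∀ᵐ ω ∂μ, ((2 * Real.exp (-Real.eulerMascheroniConstant) : ℝ) : EReal) ≤ Ginf {k | ω ∈ S k}) ∧
        ((∀ ε : ℝ, 0 < ε → ∃ᶠ n : ℕ in atTop, Real.log n ^ (1 - ε) ≤ (z n : ℝ)) →
          ∀ᵐ ω ∂μ, ((2 * Real.exp (-Real.eulerMascheroniConstant) : ℝ) : EReal) ≤ Lsup {k | ω ∈ S k})) ∧
    (∀ η : ℝ, 0 < η → ∃ b : ℝ, 0 < b ∧ ∀ z : ℕ → ℕ, Monotone z → Sub z →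
      ∀ {Ω : Type} [mΩ : MeasurableSpace Ω] (μ : Measure Ω) [IsProbabilityMeasure μ]
        (ℱ : Filtration ℕ mΩ) (S : ℕ → Set Ω), IsModel μ ℱ S z →
        ((∀ᶠ n : ℕ in atTop, (z n : ℝ) ≤ Real.log n ^ b) →
          ∀ᵐ ω ∂μ, Lsup {k | ω ∈ S k} ≤ ((1 + η : ℝ) : EReal)) ∧
        ((∃ᶠ n : ℕ in atTop, (z n : ℝ) ≤ Real.log n ^ b) →
          ∀ᵐ ω ∂μ, Ginf {k | ω ∈ S k} ≤ ((1 + η : ℝ) : EReal))) ∧
    (∀ z : ℕ → ℕ, Monotone z → Sub z →
      ∀ {Ω : Type} [mΩ : MeasurableSpace Ω] (μ : Measure Ω) [IsProbabilityMeasure μ]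
        (ℱ : Filtration ℕ mΩ) (S : ℕ → Set Ω), IsModel μ ℱ S z →
        ((∀ᵐ ω ∂μ, Lsup {k | ω ∈ S k} = 1) ↔
          ∀ ε : ℝ, 0 < ε → ∀ᶠ n : ℕ in atTop, (z n : ℝ) ≤ Real.log n ^ ε) ∧
        ((∀ᵐ ω ∂μ, Ginf {k | ω ∈ S k} = 1) ↔
          ∀ ε : ℝ, 0 < ε → ∃ᶠ n : ℕ in atTop, (z n : ℝ) ≤ Real.log n ^ ε)) := by
  obtain ⟨h1, h2, h3, h4, h5⟩ := Pool.Agent.J6H67.CG.fin3
  refine ⟨?_, ?_, ?_, ?_, ?_⟩
  · intro z hz hs Ω mΩ μ _ ℱ S hM
    exact h1 z hz hs μ ℱ S ⟨hM.adapted, hM.sieved, hM.density⟩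
  · intro ε hε
    obtain ⟨δ, hδ, h⟩ := h2 ε hε
    exact ⟨δ, hδ, fun z hz hs Ω _ μ _ ℱ S hM => h z hz hs μ ℱ S ⟨hM.adapted, hM.sieved, hM.density⟩⟩
  · intro z hz hs Ω mΩ μ _ ℱ S hM
    exact h3 z hz hs μ ℱ S ⟨hM.adapted, hM.sieved, hM.density⟩
  · intro η hη
    obtain ⟨b, hb, h⟩ := h4 η hη
    exact ⟨b, hb, fun z hz hs Ω _ μ _ ℱ S hM => h z hz hs μ ℱ S ⟨hM.adapted, hM.sieved, hM.density⟩⟩
  · intro z hz hs Ω mΩ μ _ ℱ S hM
    exact h5 z hz hs μ ℱ S ⟨hM.adapted, hM.sieved, hM.density⟩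

end Pool.Agent.Results.MP_ff81b6_nt.SequentialModels
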