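import Pool.Agent.J6H10.SF.Main

/-!
# Record gaps and increasing set functions

Let `f(x) = log x (log₂ x)² log₄ x / (log₃ x)²`, the size of the largest gaps between consecutive primes that are
known to occur up to `x`. Let `β` be ANY bounded real function on the finite sets of natural numbers with
`β(A) < β(A ∪ B)` if `A < B` (all elements of `A` are smaller than those of `B`; both sets are nonempty). There are
nonempty finite sets `W_0 < W_1 < …` such that, with `W_F` the union of the `W_i`, `i ∈ F`, for all nonempty finite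
sets `F_0 < F_1 < … < F_m` of indices, far enough out, the vector of the increments

`β(W_{F_0 ∪ … ∪ F_{l+1}}) - β(W_{F_0 ∪ … ∪ F_l})`, `0 ≤ l < m`, and the reversed vector,

times any positive function of `k` further blocks which precede `F_0`, are limit points of the vectors of `m`
consecutive prime gaps divided by `f`. The starting result `RecordSumSystem` of `MP_028722_nt` is the case of the
additive functions `β(A) = ∑_{a ∈ A} d_a` (with `∑ d_a < ∞`), in which the increments are the sums of the `d_a` over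
single blocks. Here the function is arbitrary. For instance (theorem `pairs`), if `g(a, b) > 0` and `∑ g(a, b) < ∞`,
all numbers `∑ g(a, b)` over the pairs `a < b` with `b ∈ W_G` and `a ∈ W_F ∪ W_G`, `F < G`, are limit points of
`(p_{n+1} - p_n) / f(p_n)`.

The theorem holds for countably many set functions `β_s`, dilation functions, residue classes and SCALES at once,
with the same sets `W_i`: the record function can be replaced by any slowly varying `H` with
`log x ≤ H(x) = O(f(x))`, and if `H(x) = o(f(x))` the function `β` need not be bounded.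

Method: the Maynard-Tao theorem inside the record windows (in the form of `Pool.Agent.W126.RecSum.lpH` of the
starting files) for the positions `β(X_0 ∪ … ∪ X_t)`, and the theorem on closed families of block sequences of
`Pool.Agent.W68.Mil2`.
-/

open Filter Topology

set_option autoImplicit false

namespace Pool.Agent.Results.MP_ff81b6_nt.SetFunctionRecordGaps

/-- The record scale `f(x) = log x (log₂ x)² log₄ x / (log₃ x)²` (iterated natural logarithms). -/
noncomputable def f (x : ℝ) : ℝ :=
  Real.log x * (Real.log (Real.log x)) ^ 2 * Real.log (Real.log (Real.log (Real.log x))) /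
    (Real.log (Real.log (Real.log x))) ^ 2

/-- The set of the vectors `v ∈ ℝ^m` such that for every `ε > 0` there are infinitely many `n` with
`p_(n+i) ≡ r (mod q)` for `0 ≤ i ≤ m` and `|(p_(n+i+1) - p_(n+i)) / H(p_n) - v i| < ε` for
`0 ≤ i < m` (`p_n` is the prime with index `n`): the limit points of the vectors of `m` consecutive
gaps divided by `H`, along blocks of `m + 1` consecutive primes in the class `r` modulo `q`. -/
def LimitPoints (H : ℝ → ℝ) (m q r : ℕ) : Set (Fin m → ℝ) :=
  {v | ∀ ε : ℝ, 0 < ε → ∃ᶠ n : ℕ in atTop,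
    (∀ i ≤ m, Nat.nth Nat.Prime (n + i) ≡ r [MOD q]) ∧
    ∀ i : Fin m, |((Nat.nth Nat.Prime (n + i + 1) : ℝ) - Nat.nth Nat.Prime (n + i)) /
      H (Nat.nth Nat.Prime n) - v i| < ε}

/-- the union of the `W i`, `i ∈ F 0 ∪ … ∪ F (n - 1)` -/
def union (W F : ℕ → Finset ℕ) (n : ℕ) : Finset ℕ := ((Finset.range n).biUnion F).biUnion W

/-- For every index `s` let `H s` be a slowly varying function with `log x ≤ H s x`, let `β s` be a real function on
the finite sets of natural numbers with `β s A < β s (A ∪ B)` for all nonempty `A < B`, `q s` a squarefree modulus,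
`r s` a residue prime to it, and for every `k` let `ρ s k` be a positive function of `k` finite sets. Suppose that
`H s = o(f)`, or that `H s = O(f)` and `β s` is bounded above. There are nonempty finite sets `W_0 < W_1 < …` such
that for all `s, k, m` there is `N` with: for all nonempty finite sets `N ≤ F_0 < F_1 < … < F_(k+m)` the vector of the
increments of `β s` from the union of the `W_i`, `i ∈ F_0 ∪ … ∪ F_(k+l)`, to that of the `W_i`,
`i ∈ F_0 ∪ … ∪ F_(k+l+1)`, `0 ≤ l < m`, multiplied by `ρ s k` of the first `k` unions, and the reversed vector, are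
limit points of the vectors of `m` consecutive prime gaps divided by `H s`, along the primes `≡ r s (mod q s)`. -/
theorem result (H : ℕ → ℝ → ℝ) (hlow : ∀ s, ∀ᶠ x : ℝ in atTop, Real.log x ≤ H s x)
    (hslow : ∀ s, ∀ ε : ℝ, 0 < ε → ∀ᶠ x : ℝ in atTop, ∀ t : ℝ, x ≤ t → t ≤ 4 * x →
      |H s x / H s t - 1| < ε)
    (β : ℕ → Finset ℕ → ℝ)
    (hβ : ∀ s (A B : Finset ℕ), A.Nonempty → B.Nonempty → (∀ a ∈ A, ∀ b ∈ B, a < b) →
      β s A < β s (A ∪ B))
    (hc : ∀ s, (∀ c : ℝ, 0 < c → ∀ᶠ x : ℝ in atTop, H s x ≤ c * f x) ∨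
      ((∃ C : ℝ, ∀ᶠ x : ℝ in atTop, H s x ≤ C * f x) ∧ ∃ M : ℝ, ∀ A, β s A ≤ M))
    (q r : ℕ → ℕ) (hq : ∀ s, Squarefree (q s)) (hr : ∀ s, (r s).Coprime (q s))
    (ρ : ℕ → ∀ k, (Fin k → Finset ℕ) → ℝ) (hρ : ∀ s k P, 0 < ρ s k P) :
    ∃ W : ℕ → Finset ℕ, (∀ i, (W i).Nonempty) ∧ (∀ i, ∀ a ∈ W i, ∀ b ∈ W (i + 1), a < b) ∧
      ∀ s k m : ℕ, ∃ N : ℕ, ∀ F : ℕ → Finset ℕ, (∀ l < k + 1 + m, (F l).Nonempty) →
        (∀ l < k + 1 + m, ∀ i ∈ F l, N ≤ i) →
        (∀ l, l + 1 < k + 1 + m → ∀ i ∈ F l, ∀ i' ∈ F (l + 1), i < i') →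
        (fun l : Fin m => ρ s k (fun l' => (F l').biUnion W) *
          (β s (union W F (k + 1 + (l + 1))) - β s (union W F (k + 1 + l)))) ∈
            LimitPoints (H s) m (q s) (r s) ∧
        (fun l : Fin m => ρ s k (fun l' => (F l').biUnion W) *
          (β s (union W F (k + 1 + ((Fin.rev l : Fin m) + 1))) -
            β s (union W F (k + 1 + (Fin.rev l : Fin m))))) ∈
              LimitPoints (H s) m (q s) (r s) :=
  Pool.Agent.J6H10.SF.mainS H (fun s => ⟨hlow s, hslow s⟩) β (fun s => hβ s) hc q r hq hr ρ hρ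

/-- Special case: sums over pairs. If `g(a, b) > 0` and `∑ g(a, b)` converges there are nonempty finite sets
`W_0 < W_1 < …` such that for all nonempty finite sets `F < G` of indices, far enough out, the sum of the `g(a, b)`
over the pairs `a < b` with `b` in the union of the `W_i`, `i ∈ G`, and `a` in the union of the `W_i`, `i ∈ F ∪ G`, is
a limit point of `(p_(n+1) - p_n) / f(p_n)`. -/
theorem pairs (g : ℕ → ℕ → ℝ) (hg : ∀ a b, 0 < g a b)
    (hs : Summable fun t : ℕ × ℕ => g t.1 t.2) :
    ∃ (W : ℕ → Finset ℕ) (N : ℕ), (∀ i, (W i).Nonempty) ∧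
      (∀ i, ∀ a ∈ W i, ∀ b ∈ W (i + 1), a < b) ∧
      ∀ F G : Finset ℕ, F.Nonempty → G.Nonempty → (∀ i ∈ F, N ≤ i) → (∀ i ∈ F, ∀ j ∈ G, i < j) →
        (fun _ => ∑ b ∈ G.biUnion W, ∑ a ∈ (F.biUnion W ∪ G.biUnion W).filter (· < b), g a b) ∈
          LimitPoints f 1 1 1 := by
  classical
  obtain ⟨β, hβd⟩ : ∃ β : Finset ℕ → ℝ, β = fun A => ∑ b ∈ A, ∑ a ∈ A.filter (· < b), g a b :=
    ⟨_, rfl⟩
  have hβA : ∀ A, β A = ∑ b ∈ A, ∑ a ∈ A.filter (· < b), g a b := fun A => by rw [hβd]
  have hadd : ∀ A B : Finset ℕ, (∀ a ∈ A, ∀ b ∈ B, a < b) →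
      β (A ∪ B) = β A + ∑ b ∈ B, ∑ a ∈ (A ∪ B).filter (· < b), g a b := by
    intro A B hAB
    have hdis : Disjoint A B := by
      rw [Finset.disjoint_left]
      intro a ha hb
      exact lt_irrefl a (hAB a ha a hb)
    rw [hβA, hβA, Finset.sum_union hdis]
    congr 1
    refine Finset.sum_congr rfl fun b hb => ?_
    congr 1
    ext a
    simp only [Finset.mem_filter, Finset.mem_union]
    constructor
    · rintro ⟨h1 | h1, h2⟩
      · exact ⟨h1, h2⟩
      · exact absurd (hAB b hb a h1) (by omega)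
    · rintro ⟨h1, h2⟩
      exact ⟨Or.inl h1, h2⟩
  obtain ⟨W, hW1, hW2, hW3⟩ := result (fun _ => f) (fun _ => by
      filter_upwards [Pool.Agent.H672R3.InfRec.scale_ev 1 one_pos] with x hx
      rw [one_mul] at hx
      exact hx) (fun _ ε hε => Pool.Agent.H312R2.RG.C3.ff_slow ε hε) (fun _ => β)
    (fun _ A B hA hB hAB => by
      rw [hadd A B hAB]
      obtain ⟨a, ha⟩ := hA
      have : 0 < ∑ b ∈ B, ∑ a ∈ (A ∪ B).filter (· < b), g a b := by
        refine Finset.sum_pos (fun b hb => Finset.sum_pos (fun a _ => hg a b) ⟨a, ?_⟩) hB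
        exact Finset.mem_filter.2 ⟨Finset.mem_union_left _ ha, hAB a ha b hb⟩
      linarith)
    (fun _ => Or.inr ⟨⟨1, Eventually.of_forall fun x => by rw [one_mul]⟩,
      ∑' t : ℕ × ℕ, g t.1 t.2, fun A => by
        rw [hβA]
        have h1 : ∑ b ∈ A, ∑ a ∈ A.filter (· < b), g a b ≤ ∑ b ∈ A, ∑ a ∈ A, g a b :=
          Finset.sum_le_sum fun b _ => Finset.sum_le_sum_of_subset_of_nonneg
            (Finset.filter_subset _ _) fun a _ _ => (hg a b).le
        refine h1.trans ?_
        rw [Finset.sum_comm, ← Finset.sum_product']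
        exact hs.sum_le_tsum _ fun t _ => (hg _ _).le⟩) (fun _ => 1) (fun _ => 1)
    (fun _ => squarefree_one) (fun _ => Nat.coprime_one_right 1) (fun _ _ _ => 1)
    (fun _ _ _ => one_pos)
  obtain ⟨N, hN⟩ := hW3 0 0 1
  refine ⟨W, N, hW1, hW2, fun F G hF hG hFN hFG => ?_⟩
  have hlt : ∀ i j, i < j → ∀ a ∈ W i, ∀ b ∈ W j, a < b := by
    intro i j hij
    induction j, hij using Nat.le_induction with
    | base => exact hW2 i
    | succ m hm ih =>
      intro a ha b hb
      obtain ⟨c, hc⟩ := hW1 m
      exact (ih a ha c hc).trans (hW2 m c hc b hb)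
  have h1 := (hN (fun l => if l = 0 then F else G) (by
      intro l hl
      beta_reduce
      split_ifs
      · exact hF
      · exact hG) (by
      intro l hl i hi
      beta_reduce at hi
      split_ifs at hi with h0
      · exact hFN i hi
      · obtain ⟨i0, hi0⟩ := hF
        exact (hFN i0 hi0).trans (hFG i0 hi0 i hi).le) (by
      intro l hl i hi i' hi'
      obtain rfl : l = 0 := by omega
      rw [if_pos rfl] at hi
      rw [if_neg (by omega)] at hi'
      exact hFG i hi i' hi')).1
  have hu1 : union W (fun l => if l = 0 then F else G) 1 = F.biUnion W := by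
    unfold union
    congr 1
    ext x
    simp
  have hu2 : union W (fun l => if l = 0 then F else G) 2 = F.biUnion W ∪ G.biUnion W := by
    unfold union
    rw [show Finset.range 2 = {0, 1} from rfl, Finset.biUnion_insert, Finset.singleton_biUnion,
      if_pos rfl, if_neg one_ne_zero, Finset.union_biUnion]
  convert h1 using 1
  funext l
  obtain rfl : l = 0 := Subsingleton.elim _ _
  rw [one_mul]
  simp only [Fin.val_zero, zero_add, add_zero]
  rw [hu1, hu2, hadd _ _ (by
    intro a ha b hb
    obtain ⟨i, hi, hai⟩ := Finset.mem_biUnion.1 ha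
    obtain ⟨j, hj, hbj⟩ := Finset.mem_biUnion.1 hb
    exact hlt i j (hFG i hi j hj) a hai b hbj)]
  ring

end Pool.Agent.Results.MP_ff81b6_nt.SetFunctionRecordGaps
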